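import Pool.Agent.Run7.h180.EM.FinG

/-!
# The exact matching problem reduces to maximum-weight extendable k-matchings with three weights

A bipartite graph has `n` left vertices `0, …, n - 1`, `n` right vertices `0, …, n - 1` and a list
of edges `(left vertex, right vertex, label)`. The label is a colour (`true` = red,
`false` = blue) in the exact matching problem and a weight in the problem of the page.
-/

set_option autoImplicit false

namespace Pool.Agent.Results.MP_be0860_lc.ThreeWeights

open Finset Pool.Agent.H38.NP Run7.h180.EMX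

/-- an instance of the exact matching problem: the number of vertices on each side, the wanted
number of red edges, and the edges with their colours -/
abbrev RedBlue : Type := ℕ × ℕ × List (ℕ × ℕ × Bool)

/-- an instance of the problem of the page: the number of vertices on each side, the number `k`
and the edges with their weights -/
abbrev Weighted : Type := ℕ × ℕ × List (ℕ × ℕ × ℕ)

/-- `M` lists the edges, without repetition, of a matching with `k` edges which extends to a
perfect matching -/
def Ext (n k : ℕ) (E M : List (ℕ × ℕ × ℕ)) : Prop :=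
  M.Nodup ∧ M.length = k ∧ ∃ p c, IsPM n E p c ∧ ∀ e ∈ M, e.1 < n ∧ e.2.1 = p e.1 ∧ e.2.2 = c e.1

/-- the weight of a matching -/
def wt (M : List (ℕ × ℕ × ℕ)) : ℕ := (M.map fun e => e.2.2).sum

/-- `out` is a correct answer for the instance `I`: either it is `none` and there is no perfect
matching, or it is a heaviest matching with `k` edges which extends to a perfect matching -/
def Correct (I : Weighted) (out : Option (List (ℕ × ℕ × ℕ))) : Prop :=
  (out = none ∧ ¬ ∃ p c, IsPM I.1 I.2.2 p c) ∨
  ∃ M, out = some M ∧ Ext I.1 I.2.1 I.2.2 M ∧ ∀ M', Ext I.1 I.2.1 I.2.2 M' → wt M' ≤ wt M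

theorem hasExt_iff {n k W : ℕ} {E : List (ℕ × ℕ × ℕ)} :
    HasExt n k W E ↔ ∃ M, Ext n k E M ∧ W ≤ wt M := by
  classical
  constructor
  · rintro ⟨p, c, hpm, S, hS, hc, hW⟩
    refine ⟨S.toList.map fun i => (i, p i, c i), ⟨?_, ?_, p, c, hpm, ?_⟩, ?_⟩
    · exact S.nodup_toList.map fun a b hab => congrArg Prod.fst hab
    · rw [List.length_map, Finset.length_toList, hc]
    · intro e he
      rw [List.mem_map] at he
      obtain ⟨i, hi, rfl⟩ := he
      exact ⟨mem_range.1 (hS (Finset.mem_toList.1 hi)), rfl, rfl⟩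
    · unfold wt
      rw [List.map_map]
      have h1 : (S.toList.map ((fun e : ℕ × ℕ × ℕ => e.2.2) ∘ fun i => (i, p i, c i))).sum =
          ∑ i ∈ S, c i := by
        rw [← Finset.sum_map_toList]
        rfl
      rw [h1]
      exact hW
  · rintro ⟨M, ⟨hnd, hlen, p, c, hpm, hM⟩, hW⟩
    have hinj : ∀ e ∈ M, ∀ e' ∈ M, e.1 = e'.1 → e = e' := by
      intro e he e' he' h
      obtain ⟨-, h1, h2⟩ := hM e he
      obtain ⟨-, h1', h2'⟩ := hM e' he'
      exact Prod.ext h (Prod.ext (by rw [h1, h1', h]) (by rw [h2, h2', h]))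
    have hnd' : (M.map Prod.fst).Nodup := by
      rw [List.nodup_map_iff_inj_on hnd]
      exact fun e he e' he' h => hinj e he e' he' h
    refine ⟨p, c, hpm, (M.map Prod.fst).toFinset, ?_, ?_, ?_⟩
    · intro i hi
      rw [List.mem_toFinset, List.mem_map] at hi
      obtain ⟨e, he, rfl⟩ := hi
      exact mem_range.2 (hM e he).1
    · rw [List.toFinset_card_of_nodup hnd', List.length_map, hlen]
    · have h1 : ∑ i ∈ (M.map Prod.fst).toFinset, c i = wt M := by
        rw [List.sum_toFinset _ hnd', List.map_map]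
        unfold wt
        congr 1
        exact List.map_congr_left fun e he => ((hM e he).2.2).symm
      rw [h1]
      exact hW

/-- for any three fixed weights `x < y < z` the exact matching problem reduces in polynomial time
to the problem of the page with the weights `x`, `y` and `z` only -/
theorem result : ∀ x y z : ℕ, x < y → y < z → ∃ (f : RedBlue → Weighted) (W : RedBlue → ℕ),
    PolyTimeOn (fun _ => True) f ∧ PolyTimeOn (fun _ => True) W ∧
    ∀ a : RedBlue, Valid (f a) ∧ (∀ e ∈ (f a).2.2, e.2.2 = x ∨ e.2.2 = y ∨ e.2.2 = z) ∧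
      (HasExact a.1 a.2.1 a.2.2 ↔ HasExt (f a).1 (f a).2.1 (W a) (f a).2.2) ∧
      ∀ out, Correct (f a) out →
        (HasExact a.1 a.2.1 a.2.2 ↔ ∃ M, out = some M ∧ W a ≤ wt M) := by
  intro x y z hxy hyz
  obtain ⟨A, rfl⟩ : ∃ A, y = x + A + 1 := ⟨y - x - 1, by omega⟩
  obtain ⟨β, rfl⟩ : ∃ β, z = x + A + 1 + β := ⟨z - (x + A + 1), by omega⟩
  refine ⟨gInst x A β, gThr x A β, (pt_gInst x A β).polyTimeOn _, (pt_gThr x A β).polyTimeOn _,
    fun a => ⟨gInst_valid x A β a, gInst_weights x A β a, gInst_iff x A β (by omega) a, ?_⟩⟩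
  intro out hout
  rw [gInst_iff x A β (by omega) a, hasExt_iff]
  rcases hout with ⟨rfl, hno⟩ | ⟨M, rfl, hM, hmax⟩
  · constructor
    · rintro ⟨M, ⟨-, -, p, c, hpm, -⟩, -⟩
      exact absurd ⟨p, c, hpm⟩ hno
    · rintro ⟨M, h, -⟩
      exact absurd h (by simp)
  · constructor
    · rintro ⟨M', hM', hW⟩
      exact ⟨M, rfl, hW.trans (hmax M' hM')⟩
    · rintro ⟨M', h, hW⟩
      obtain rfl := Option.some.inj h
      exact ⟨M, hM, hW⟩

end Pool.Agent.Results.MP_be0860_lc.ThreeWeights
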